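import Mathlib

set_option autoImplicit false

/-!
# The gonality of the product of a tree and a graph can be smaller than expected

Let `T` be the path with 3 vertices and `H` the path `0 - 1 - 2 - 3 - 4 = 5` with 6 vertices whose
last edge is doubled.  Then `gon(H) = 2`, so the expected gonality of the product is `6`, but the
divisor with one chip at each of `(0,0), (1,0), (2,0), (1,4), (1,5)` has positive rank.
-/

namespace Pool.Agent.Results.MP_30555c_co.DoubledEndEdge

/-- A finite multigraph without loops: `mult u v` is the number of edges between `u` and `v`. -/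
structure Multigraph (V : Type) where
  /-- the number of edges between two vertices -/
  mult : V → V → ℕ
  /-- the multiplicity is symmetric -/
  symm : ∀ u v, mult u v = mult v u
  /-- there are no loops -/
  loopless : ∀ v, mult v v = 0

namespace Multigraph

variable {V W : Type} (G : Multigraph V)

/-- The underlying simple graph. -/
def simple : SimpleGraph V where
  Adj u v := 0 < G.mult u v
  symm := ⟨fun u v h => by rw [G.symm v u]; exact h⟩
  loopless := ⟨fun v h => by rw [G.loopless v] at h; exact lt_irrefl 0 h⟩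

/-- The multigraph is connected. -/
def Connected : Prop := G.simple.Connected

/-- The multigraph is a tree: no multiple edges, and the underlying simple graph is a tree. -/
def IsTree : Prop := (∀ u v, G.mult u v ≤ 1) ∧ G.simple.IsTree

variable [Fintype V] [DecidableEq V] [Fintype W] [DecidableEq W]

/-- Firing the vertex `v` moves one chip from `v` along each edge at `v` to the other endpoint. -/
def fire (v : V) (D : V → ℤ) : V → ℤ := fun u =>
  if u = v then D u - ∑ w, (G.mult v w : ℤ) else D u + (G.mult v u : ℤ)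

/-- `E` is obtained from `D` by a finite sequence of firings. -/
def Reaches (D E : V → ℤ) : Prop := Relation.ReflTransGen (fun A B => ∃ v, B = G.fire v A) D E

/-- A divisor is effective if all its values are nonnegative. -/
def Effective (D : V → ℤ) : Prop := ∀ v, 0 ≤ D v

/-- An effective divisor `D` has positive rank if, for every vertex `v`, the divisor `D - 1_v` is
equivalent to an effective divisor. -/
def HasPositiveRank (D : V → ℤ) : Prop :=
  Effective D ∧ ∀ v, ∃ E : V → ℤ, Effective E ∧ G.Reaches (fun u => D u - if u = v then 1 else 0) E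

/-- The gonality: the minimum degree of an effective divisor of positive rank. -/
noncomputable def gonality : ℕ :=
  sInf {d : ℕ | ∃ D : V → ℤ, G.HasPositiveRank D ∧ ∑ v, D v = d}

/-- The Cartesian product of two multigraphs. -/
def box (H : Multigraph W) : Multigraph (V × W) where
  mult x y := (if x.2 = y.2 then G.mult x.1 y.1 else 0) + (if x.1 = y.1 then H.mult x.2 y.2 else 0)
  symm x y := by
    rw [G.symm x.1 y.1, H.symm x.2 y.2]
    simp only [eq_comm]
  loopless x := by simp [G.loopless, H.loopless]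

/-! ### Firing several vertices at once -/

theorem reaches_single (v : V) (n : ℕ) : ∀ D : V → ℤ,
    G.Reaches D (fun u => D u - ∑ w, (G.mult u w : ℤ) *
      ((Pi.single v n : V → ℕ) u - (Pi.single v n : V → ℕ) w : ℤ)) := by
  induction n with
  | zero =>
    intro D
    have : (fun u => D u - ∑ w, (G.mult u w : ℤ) *
      ((Pi.single v 0 : V → ℕ) u - (Pi.single v 0 : V → ℕ) w : ℤ)) = D := by
      funext u
      simp
    rw [this]
    exact Relation.ReflTransGen.refl
  | succ n ih =>
    intro D
    refine Relation.ReflTransGen.tail (ih D) ⟨v, ?_⟩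
    funext u
    unfold fire
    by_cases huv : u = v
    · subst huv
      simp only [if_true]
      have : ∀ w, (G.mult u w : ℤ) * (((Pi.single u (n + 1) : V → ℕ) u : ℤ)
          - ((Pi.single u (n + 1) : V → ℕ) w : ℤ))
          = (G.mult u w : ℤ) * (((Pi.single u n : V → ℕ) u : ℤ)
          - ((Pi.single u n : V → ℕ) w : ℤ)) + (G.mult u w : ℤ) := by
        intro w
        by_cases hw : w = u
        · subst hw
          simp [G.loopless]
        · simp [Pi.single_eq_same, Pi.single_eq_of_ne hw]
          ring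
      rw [Finset.sum_congr rfl fun w _ => this w, Finset.sum_add_distrib]
      ring
    · simp only [huv, if_false]
      have : ∀ w, (G.mult u w : ℤ) * (((Pi.single v (n + 1) : V → ℕ) u : ℤ)
          - ((Pi.single v (n + 1) : V → ℕ) w : ℤ))
          = (G.mult u w : ℤ) * (((Pi.single v n : V → ℕ) u : ℤ)
          - ((Pi.single v n : V → ℕ) w : ℤ)) - (if w = v then (G.mult u w : ℤ) else 0) := by
        intro w
        by_cases hw : w = v
        · subst hw
          simp [Pi.single_eq_same, Pi.single_eq_of_ne huv]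
          ring
        · simp [Pi.single_eq_of_ne huv, hw]
      rw [Finset.sum_congr rfl fun w _ => this w, Finset.sum_sub_distrib,
        Finset.sum_ite_eq' Finset.univ v, if_pos (Finset.mem_univ v), G.symm v u]
      ring

theorem reaches_fire (f : V → ℕ) (D : V → ℤ) :
    G.Reaches D (fun u => D u - ∑ w, (G.mult u w : ℤ) * ((f u : ℤ) - (f w : ℤ))) := by
  have key : ∀ (s : Finset V) (D : V → ℤ), G.Reaches D (fun u => D u - ∑ w, (G.mult u w : ℤ) *
      (((∑ v ∈ s, Pi.single v (f v) : V → ℕ) u : ℤ) - ((∑ v ∈ s, Pi.single v (f v) : V → ℕ) w : ℤ))) := by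
    intro s
    induction s using Finset.induction_on with
    | empty =>
      intro D
      have : (fun u => D u - ∑ w, (G.mult u w : ℤ) *
        (((∑ v ∈ (∅ : Finset V), Pi.single v (f v) : V → ℕ) u : ℤ) -
          ((∑ v ∈ (∅ : Finset V), Pi.single v (f v) : V → ℕ) w : ℤ))) = D := by
        funext u
        simp
      rw [this]
      exact Relation.ReflTransGen.refl
    | insert a s ha ih =>
      intro D
      have h1 := ih D
      have h2 := G.reaches_single a (f a) (fun u => D u - ∑ w, (G.mult u w : ℤ) *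
        (((∑ v ∈ s, Pi.single v (f v) : V → ℕ) u : ℤ) -
          ((∑ v ∈ s, Pi.single v (f v) : V → ℕ) w : ℤ)))
      have h3 : G.Reaches D _ := Relation.ReflTransGen.trans h1 h2
      convert h3 using 1
      funext u
      rw [sub_sub, ← Finset.sum_add_distrib, Finset.sum_insert ha]
      congr 1
      refine Finset.sum_congr rfl fun w _ => ?_
      simp only [Pi.add_apply, Nat.cast_add]
      ring
  have := key Finset.univ D
  rwa [Finset.univ_sum_single] at this

end Multigraph

open Multigraph

/-- The path with 3 vertices. -/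
def T : Multigraph (Fin 3) where
  mult i j := if i.val + 1 = j.val ∨ j.val + 1 = i.val then 1 else 0
  symm := by decide
  loopless := by decide

/-- The path `0 - 1 - 2 - 3 - 4 = 5` whose last edge is doubled. -/
def H : Multigraph (Fin 6) where
  mult i j := if i.val + 1 = j.val ∨ j.val + 1 = i.val then
    (if i.val = 5 ∨ j.val = 5 then 2 else 1) else 0
  symm := by decide
  loopless := by decide

/-- The vertices to be fired, for every target vertex. -/
def script : List (List ℕ) :=
  [[0, 0, 0, 0, 0, 0, 0, 0, 0, 0, 0, 0, 0, 0, 0, 0, 0, 0],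
  [1, 0, 0, 0, 0, 0, 1, 0, 0, 0, 0, 0, 1, 0, 0, 0, 0, 0],
  [2, 1, 0, 0, 0, 0, 2, 1, 0, 0, 0, 0, 2, 1, 0, 0, 0, 0],
  [3, 2, 1, 0, 0, 0, 3, 2, 1, 0, 0, 0, 3, 2, 1, 0, 0, 0],
  [4, 3, 2, 1, 0, 0, 4, 3, 2, 1, 1, 1, 4, 3, 2, 1, 1, 1],
  [4, 3, 2, 1, 0, 0, 4, 3, 2, 1, 1, 1, 4, 3, 2, 1, 1, 1],
  [0, 0, 0, 0, 0, 0, 0, 0, 0, 0, 0, 0, 0, 0, 0, 0, 0, 0],
  [1, 0, 0, 0, 0, 0, 1, 0, 0, 0, 0, 0, 1, 0, 0, 0, 0, 0],
  [2, 1, 0, 0, 0, 0, 2, 1, 0, 0, 0, 0, 2, 1, 0, 0, 0, 0],
  [3, 2, 1, 0, 0, 0, 3, 2, 1, 0, 0, 0, 3, 2, 1, 0, 0, 0],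
  [0, 0, 0, 0, 0, 0, 0, 0, 0, 0, 0, 0, 0, 0, 0, 0, 0, 0],
  [0, 0, 0, 0, 0, 0, 0, 0, 0, 0, 0, 0, 0, 0, 0, 0, 0, 0],
  [0, 0, 0, 0, 0, 0, 0, 0, 0, 0, 0, 0, 0, 0, 0, 0, 0, 0],
  [1, 0, 0, 0, 0, 0, 1, 0, 0, 0, 0, 0, 1, 0, 0, 0, 0, 0],
  [2, 1, 0, 0, 0, 0, 2, 1, 0, 0, 0, 0, 2, 1, 0, 0, 0, 0],
  [3, 2, 1, 0, 0, 0, 3, 2, 1, 0, 0, 0, 3, 2, 1, 0, 0, 0],
  [4, 3, 2, 1, 1, 1, 4, 3, 2, 1, 1, 1, 4, 3, 2, 1, 0, 0],
  [4, 3, 2, 1, 1, 1, 4, 3, 2, 1, 1, 1, 4, 3, 2, 1, 0, 0]]

/-- The number of times the vertex `u` is fired for the target vertex `v`. -/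
def times (v u : Fin 3 × Fin 6) : ℕ :=
  (script.getD (6 * v.1.val + v.2.val) []).getD (6 * u.1.val + u.2.val) 0

/-- The divisor of degree 5. -/
def divisor (u : Fin 3 × Fin 6) : ℤ :=
  if u.2 = 0 then 1 else if u = (1, 4) ∨ u = (1, 5) then 1 else 0

theorem script_effective : ∀ v u : Fin 3 × Fin 6,
    0 ≤ divisor u - (if u = v then 1 else 0) -
      ∑ w, (((T.box H).mult u w : ℤ)) * ((times v u : ℤ) - (times v w : ℤ)) := by
  decide +kernel

theorem positiveRank : (T.box H).HasPositiveRank divisor := by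
  refine ⟨by unfold Effective; decide, fun v => ⟨_, ?_, reaches_fire _ (times v) _⟩⟩
  exact script_effective v

theorem gonality_box : (T.box H).gonality ≤ 5 :=
  Nat.sInf_le ⟨divisor, positiveRank, by decide⟩

/-- Firing preserves the parity of the number of chips at the last vertex of `H`. -/
theorem parity {D E : Fin 6 → ℤ} (h : H.Reaches D E) : (D 5) % 2 = (E 5) % 2 := by
  induction h with
  | refl => rfl
  | tail _ hs ih =>
    obtain ⟨v, rfl⟩ := hs
    rw [ih]
    fin_cases v <;> simp [fire, Fin.sum_univ_six, H]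

/-- Firing preserves the degree. -/
theorem degree_eq {D E : Fin 6 → ℤ} (h : H.Reaches D E) : ∑ v, D v = ∑ v, E v := by
  induction h with
  | refl => rfl
  | tail _ hs ih =>
    obtain ⟨v, rfl⟩ := hs
    rw [ih]
    fin_cases v <;> simp [fire, Fin.sum_univ_six, H] <;> ring

theorem two_le_gonality : 2 ≤ H.gonality := by
  have hne : {d : ℕ | ∃ D : Fin 6 → ℤ, H.HasPositiveRank D ∧ ∑ v, D v = d}.Nonempty := by
    refine ⟨6, fun _ => 1, ⟨fun v => by norm_num, fun v => ⟨_, ?_, Relation.ReflTransGen.refl⟩⟩,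
      by simp⟩
    intro u
    dsimp only
    split_ifs <;> norm_num
  obtain ⟨D, ⟨heff, hrank⟩, hdeg⟩ := Nat.sInf_mem hne
  change 2 ≤ sInf {d : ℕ | ∃ D : Fin 6 → ℤ, H.HasPositiveRank D ∧ ∑ v, D v = d}
  by_contra hlt
  have hle : ∑ v, D v ≤ 1 := by
    rw [hdeg]
    exact_mod_cast (by omega : sInf {d : ℕ | ∃ D : Fin 6 → ℤ, H.HasPositiveRank D ∧
      ∑ v, D v = d} ≤ 1)
  obtain ⟨E, hE, hr⟩ := hrank 0
  obtain ⟨F, hF, hs⟩ := hrank 5
  have p1 := parity hr
  have p2 := parity hs
  have d1 := degree_eq hr
  have d2 := degree_eq hs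
  have e0 := hE 0; have e1 := hE 1; have e2 := hE 2; have e3 := hE 3; have e4 := hE 4
  have e5 := hE 5
  have f0 := hF 0; have f1 := hF 1; have f2 := hF 2; have f3 := hF 3; have f4 := hF 4
  have f5 := hF 5
  simp [Fin.sum_univ_six] at p1 p2 d1 d2 hle
  omega

instance (V : Type) (G : Multigraph V) : DecidableRel G.simple.Adj := fun u v => by
  change Decidable (0 < G.mult u v)
  infer_instance

theorem T_isTree : T.IsTree := by
  refine ⟨by decide, ?_⟩
  rw [SimpleGraph.isTree_iff_connected_and_card]
  constructor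
  · rw [SimpleGraph.connected_iff_exists_forall_reachable]
    have h1 : T.simple.Reachable 0 1 := SimpleGraph.Adj.reachable (by decide)
    have h2 : T.simple.Reachable 1 2 := SimpleGraph.Adj.reachable (by decide)
    refine ⟨0, fun v => ?_⟩
    fin_cases v
    · exact SimpleGraph.Reachable.refl _
    · exact h1
    · exact h1.trans h2
  · rw [Nat.card_eq_fintype_card, Nat.card_eq_fintype_card]
    decide +kernel

theorem H_connected : H.Connected := by
  have h1 : H.simple.Reachable 0 1 := SimpleGraph.Adj.reachable (by decide)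
  have h2 : H.simple.Reachable 1 2 := SimpleGraph.Adj.reachable (by decide)
  have h3 : H.simple.Reachable 2 3 := SimpleGraph.Adj.reachable (by decide)
  have h4 : H.simple.Reachable 3 4 := SimpleGraph.Adj.reachable (by decide)
  have h5 : H.simple.Reachable 4 5 := SimpleGraph.Adj.reachable (by decide)
  unfold Multigraph.Connected
  rw [SimpleGraph.connected_iff_exists_forall_reachable]
  refine ⟨0, fun v => ?_⟩
  fin_cases v
  · exact SimpleGraph.Reachable.refl _
  · exact h1
  · exact h1.trans h2
  · exact (h1.trans h2).trans h3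
  · exact ((h1.trans h2).trans h3).trans h4
  · exact (((h1.trans h2).trans h3).trans h4).trans h5

/-- **There are a tree `T` and a connected multigraph `H` such that the gonality of the Cartesian
product of `T` and `H` is smaller than the expected gonality
`min (|V(H)|, |V(T)| * gon(H))`.** -/
theorem result : ∃ (T : Multigraph (Fin 3)) (H : Multigraph (Fin 6)), T.IsTree ∧ H.Connected ∧
    (T.box H).gonality < min (Fintype.card (Fin 6)) (Fintype.card (Fin 3) * H.gonality) := by
  refine ⟨T, H, T_isTree, H_connected, lt_of_le_of_lt gonality_box ?_⟩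
  have := two_le_gonality
  rw [lt_min_iff]
  constructor
  · simp
  · simp only [Fintype.card_fin]
    omega

end Pool.Agent.Results.MP_30555c_co.DoubledEndEdge
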